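import Pool.Agent.H70alt.Model

/-!
# MP_2692c1_al, Q1: the free alternative ring has elements of order three

The multilinear element `tors` of degree six (`Pool.Agent.H70alt.Torsion`) is killed by `3` in every
alternative ring, and it does not vanish in a commutative alternative algebra over the field with
three elements (`Pool.Agent.H70alt.Model`).
-/

set_option autoImplicit false

namespace Pool.Agent.Results.MP_2692c1_al.ThreeTorsion

open H70alt

universe u v

/-- The free nonassociative (non-unital) `Φ`-algebra on a countably infinite set of generators. -/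
abbrev FreeNA (Φ : Type u) [CommRing Φ] : Type u := FreeNonUnitalNonAssocAlgebra Φ ℕ

/-- The ideal of the free nonassociative algebra generated by all associators `(f,f,g)` and
`(g,f,f)`: the smallest `Φ`-submodule which contains them and is closed under left and right
multiplication by arbitrary elements. -/
noncomputable def altIdeal (Φ : Type u) [CommRing Φ] : Submodule Φ (FreeNA Φ) :=
  sInf {I | (∀ f g : FreeNA Φ, associator f f g ∈ I ∧ associator g f f ∈ I) ∧
    ∀ a x : FreeNA Φ, x ∈ I → a * x ∈ I ∧ x * a ∈ I}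

/-- The free alternative `Φ`-algebra on a countably infinite set, as a `Φ`-module. -/
abbrev AltAlg (Φ : Type u) [CommRing Φ] : Type u := FreeNA Φ ⧸ altIdeal Φ

section
variable (Φ : Type u) [CommRing Φ]

theorem alt_assoc_mem (f g : FreeNA Φ) :
    associator f f g ∈ altIdeal Φ ∧ associator g f f ∈ altIdeal Φ := by
  simp only [altIdeal, Submodule.mem_sInf, Set.mem_ofPred_eq]
  exact ⟨fun I hI => (hI.1 f g).1, fun I hI => (hI.1 f g).2⟩

theorem alt_mul_mem (a x : FreeNA Φ) (hx : x ∈ altIdeal Φ) :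
    a * x ∈ altIdeal Φ ∧ x * a ∈ altIdeal Φ := by
  simp only [altIdeal, Submodule.mem_sInf, Set.mem_ofPred_eq] at hx ⊢
  exact ⟨fun I hI => (hI.2 a x (hx I hI)).1, fun I hI => (hI.2 a x (hx I hI)).2⟩

/-- the congruence of the ideal -/
noncomputable def altCon : RingCon (FreeNA Φ) where
  r x y := x - y ∈ altIdeal Φ
  iseqv := by
    refine ⟨fun x => ?_, fun {x y} h => ?_, fun {x y z} h1 h2 => ?_⟩
    · rw [sub_self]; exact Submodule.zero_mem _
    · rw [← neg_sub]; exact Submodule.neg_mem _ h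
    · have := Submodule.add_mem _ h1 h2
      rwa [sub_add_sub_cancel] at this
  mul' := by
    intro w x y z h1 h2
    have e : w * y - x * z = (w - x) * y + x * (y - z) := by
      simp only [sub_mul, mul_sub]; abel
    rw [e]
    exact Submodule.add_mem _ (alt_mul_mem Φ _ _ h1).2 (alt_mul_mem Φ _ _ h2).1
  add' := by
    intro w x y z h1 h2
    have e : w + y - (x + z) = (w - x) + (y - z) := by abel
    rw [e]
    exact Submodule.add_mem _ h1 h2

/-- quotient map -/
noncomputable def qmap : FreeNA Φ →ₙ+* (altCon Φ).Quotient where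
  toFun x := (x : (altCon Φ).Quotient)
  map_mul' _ _ := rfl
  map_zero' := rfl
  map_add' _ _ := rfl

theorem qmap_eq_zero (x : FreeNA Φ) : qmap Φ x = 0 ↔ x ∈ altIdeal Φ := by
  have h : qmap Φ x = 0 ↔ (altCon Φ) x 0 := RingCon.eq (altCon Φ)
  rw [h]
  change x - 0 ∈ altIdeal Φ ↔ _
  rw [sub_zero]

theorem qmap_surj : Function.Surjective (qmap Φ) := by
  intro y
  induction y using Quotient.inductionOn' with
  | h x => exact ⟨x, rfl⟩

theorem map_associator {A B : Type*} [NonUnitalNonAssocRing A] [NonUnitalNonAssocRing B]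
    (φ : A →ₙ+* B) (x y z : A) :
    φ (associator x y z) = associator (φ x) (φ y) (φ z) := by
  simp only [associator_apply, map_sub, map_mul]

theorem map_tors {A B : Type*} [NonUnitalNonAssocRing A] [NonUnitalNonAssocRing B]
    (φ : A →ₙ+* B) (x0 x1 x2 x3 x4 x5 : A) :
    φ (tors x0 x1 x2 x3 x4 x5) = tors (φ x0) (φ x1) (φ x2) (φ x3) (φ x4) (φ x5) := by
  simp only [tors, ld, kf, jp, cm, associator_apply, map_sub, map_mul, map_add, map_zsmul]

theorem quot_alt : IsAlt (altCon Φ).Quotient := by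
  constructor
  · intro x y
    obtain ⟨x, rfl⟩ := qmap_surj Φ x
    obtain ⟨y, rfl⟩ := qmap_surj Φ y
    rw [← map_associator, qmap_eq_zero]
    exact (alt_assoc_mem Φ x y).1
  · intro x y
    obtain ⟨x, rfl⟩ := qmap_surj Φ x
    obtain ⟨y, rfl⟩ := qmap_surj Φ y
    rw [← map_associator, qmap_eq_zero]
    exact (alt_assoc_mem Φ x y).2

/-- the polynomial whose class is the torsion element -/
noncomputable def tpoly : FreeNA Φ :=
  let x : ℕ → FreeNA Φ := FreeNonUnitalNonAssocAlgebra.of Φ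
  tors (x 0) (x 1) (x 2) (x 3) (x 4) (x 5)

theorem three_tpoly : (3 : ℤ) • tpoly Φ ∈ altIdeal Φ := by
  rw [← qmap_eq_zero, map_zsmul, tpoly, map_tors]
  exact three_tors (quot_alt Φ) _ _ _ _ _ _

/-- the class of `tpoly` -/
noncomputable def tcls : AltAlg Φ := Submodule.Quotient.mk (tpoly Φ)

theorem three_tcls : (3 : Φ) • tcls Φ = 0 := by
  have h : (3 : Φ) • tpoly Φ = (3 : ℤ) • tpoly Φ := by
    rw [← Int.cast_smul_eq_zsmul Φ]; norm_num
  rw [tcls, ← Submodule.Quotient.mk_smul, Submodule.Quotient.mk_eq_zero, h]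
  exact three_tpoly Φ

/-- the six values of the generators in the model -/
def gval (k : Type v) [CommRing k] (n : ℕ) : Mdl k :=
  if n = 0 then ebas k 1 else if n = 1 then ebas k 2 else if n = 2 then ebas k 4
  else if n = 3 then ebas k 8 else if n = 4 then ebas k 16 else ebas k 32

/-- the map to the model -/
noncomputable def toMdl (k : Type v) [CommRing k] [Algebra Φ k] : FreeNA Φ →ₙₐ[Φ] Mdl k :=
  FreeNonUnitalNonAssocAlgebra.lift Φ (gval k)

theorem toMdl_tpoly (k : Type v) [CommRing k] [Algebra Φ k] (h3 : (3 : k) = 0) :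
    toMdl Φ k (tpoly Φ) = ebas k 63 := by
  have h := map_tors ((toMdl Φ k : FreeNA Φ →ₙₐ[Φ] Mdl k) : FreeNA Φ →ₙ+* Mdl k)
    (FreeNonUnitalNonAssocAlgebra.of Φ 0) (FreeNonUnitalNonAssocAlgebra.of Φ 1)
    (FreeNonUnitalNonAssocAlgebra.of Φ 2) (FreeNonUnitalNonAssocAlgebra.of Φ 3)
    (FreeNonUnitalNonAssocAlgebra.of Φ 4) (FreeNonUnitalNonAssocAlgebra.of Φ 5)
  have e : ∀ n : ℕ, ((toMdl Φ k : FreeNA Φ →ₙₐ[Φ] Mdl k) : FreeNA Φ →ₙ+* Mdl k)
      (FreeNonUnitalNonAssocAlgebra.of Φ n) = gval k n := fun n =>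
    FreeNonUnitalNonAssocAlgebra.lift_of_apply Φ (gval k) n
  rw [e, e, e, e, e, e] at h
  have h2 : tors (gval k 0) (gval k 1) (gval k 2) (gval k 3) (gval k 4) (gval k 5) =
      ebas k 63 := mdl_tors h3
  rw [h2] at h
  exact h

theorem altIdeal_le_ker (k : Type v) [CommRing k] [Algebra Φ k] (h3 : (3 : k) = 0) :
    altIdeal Φ ≤ LinearMap.ker ((toMdl Φ k : FreeNA Φ →ₙₐ[Φ] Mdl k) : FreeNA Φ →ₗ[Φ] Mdl k) := by
  refine sInf_le ⟨fun f g => ?_, fun a x hx => ?_⟩
  · constructor
    · change toMdl Φ k (associator f f g) = 0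
      simp only [associator_apply, map_sub, map_mul]
      exact (mdl_alt h3).left _ _
    · change toMdl Φ k (associator g f f) = 0
      simp only [associator_apply, map_sub, map_mul]
      exact (mdl_alt h3).right _ _
  · have hx' : toMdl Φ k x = 0 := hx
    constructor
    · change toMdl Φ k (a * x) = 0
      rw [map_mul, hx', mul_zero]
    · change toMdl Φ k (x * a) = 0
      rw [map_mul, hx', zero_mul]

/-- the induced map on the quotient -/
noncomputable def psi (k : Type v) [CommRing k] [Algebra Φ k] (h3 : (3 : k) = 0) :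
    AltAlg Φ →ₗ[Φ] Mdl k :=
  (altIdeal Φ).liftQ _ (altIdeal_le_ker Φ k h3)

theorem psi_tcls (k : Type v) [CommRing k] [Algebra Φ k] (h3 : (3 : k) = 0) :
    psi Φ k h3 (tcls Φ) = ebas k 63 := toMdl_tpoly Φ k h3

theorem ebas_ne_zero (k : Type v) [CommRing k] [Nontrivial k] (i : Fin 64) :
    ebas k i ≠ 0 := by
  intro h
  have := congrFun h i
  simp only [ebas, Pi.single_eq_same] at this
  exact one_ne_zero this

theorem tcls_ne_zero (k : Type v) [CommRing k] [Nontrivial k] [Algebra Φ k] (h3 : (3 : k) = 0) :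
    tcls Φ ≠ 0 := by
  intro h
  have h2 := psi_tcls Φ k h3
  rw [h, map_zero] at h2
  exact ebas_ne_zero k 63 h2.symm

theorem free_imp (hfree : Module.Free Φ (AltAlg Φ)) : ∃ t : Φ, (3 : Φ) = 9 * t := by
  classical
  let b := Module.Free.chooseBasis Φ (AltAlg Φ)
  have h3 : ∀ i, (3 : Φ) * b.repr (tcls Φ) i = 0 := by
    intro i
    have h := congrArg (fun v => b.repr v i) (three_tcls Φ)
    simpa using h
  let J : Ideal Φ := Ideal.span (Set.range fun i => b.repr (tcls Φ) i)
  have hJ : ∀ x ∈ J, (3 : Φ) * x = 0 := by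
    intro x hx
    refine Submodule.span_induction ?_ ?_ ?_ ?_ hx
    · rintro _ ⟨i, rfl⟩; exact h3 i
    · exact mul_zero _
    · intro x y _ _ hx hy; rw [mul_add, hx, hy, add_zero]
    · intro a x _ hx; rw [smul_eq_mul, mul_left_comm, hx, mul_zero]
  have htop : J ⊔ Ideal.span {(3 : Φ)} = ⊤ := by
    by_contra hne
    obtain ⟨m, hm, hle⟩ := Ideal.exists_le_maximal _ hne
    have hk3 : (3 : Φ ⧸ m) = 0 := by
      have : (Ideal.Quotient.mk m (3 : Φ)) = 0 :=
        Ideal.Quotient.eq_zero_iff_mem.mpr (hle (Ideal.mem_sup_right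
          (Ideal.subset_span (Set.mem_singleton _))))
      exact (map_ofNat (Ideal.Quotient.mk m) 3).symm.trans this
    have hnt : Nontrivial (Φ ⧸ m) := Ideal.Quotient.nontrivial_iff.mpr hm.ne_top
    have h1 := psi_tcls Φ (Φ ⧸ m) hk3
    have h2 : psi Φ (Φ ⧸ m) hk3 (tcls Φ) = 0 := by
      rw [← b.linearCombination_repr (tcls Φ), Finsupp.linearCombination_apply, Finsupp.sum,
        map_sum]
      refine Finset.sum_eq_zero fun i _ => ?_
      rw [map_smul]
      have hi : b.repr (tcls Φ) i ∈ m :=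
        hle (Ideal.mem_sup_left (Ideal.subset_span ⟨i, rfl⟩))
      refine mdl_ext fun l => ?_
      rw [mdl_smul_apply, Algebra.smul_def, Ideal.Quotient.algebraMap_eq,
        Ideal.Quotient.eq_zero_iff_mem.mpr hi, zero_mul]
      rfl
    exact ebas_ne_zero (Φ ⧸ m) 63 (h1.symm.trans h2)
  have h1 : (1 : Φ) ∈ J ⊔ Ideal.span {(3 : Φ)} := htop ▸ Submodule.mem_top
  obtain ⟨j, hj, s, hs, hjs⟩ := Submodule.mem_sup.mp h1
  obtain ⟨t, rfl⟩ := Ideal.mem_span_singleton'.mp hs
  refine ⟨t, ?_⟩
  calc (3 : Φ) = 3 * (j + t * 3) := by rw [hjs, mul_one]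
    _ = 3 * j + 9 * t := by ring
    _ = 9 * t := by rw [hJ j hj, zero_add]

end

/-- The free alternative ring on a countably infinite set has an element of order three, so it is
not a free abelian group; and if the free alternative `Φ`-algebra is a free `Φ`-module then
`3` lies in the ideal `9Φ`. -/
theorem result :
    (∃ f : AltAlg ℤ, f ≠ 0 ∧ (3 : ℤ) • f = 0) ∧ ¬ Module.Free ℤ (AltAlg ℤ) ∧
    ∀ (Φ : Type u) [CommRing Φ], Module.Free Φ (AltAlg Φ) → ∃ t : Φ, (3 : Φ) = 9 * t := by
  refine ⟨⟨tcls ℤ, tcls_ne_zero ℤ (ZMod 3) (by decide), three_tcls ℤ⟩, fun h => ?_,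
    fun Φ _ h => free_imp Φ h⟩
  obtain ⟨t, ht⟩ := free_imp ℤ h
  omega

end Pool.Agent.Results.MP_2692c1_al.ThreeTorsion
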